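import Pool.Agent.P.MP_7eacff_nt.Rig.Final

/-!
On the Riemann hypothesis, either a positive proportion of the normalised gaps between consecutive
zeros of the zeta function stay below `1 / 2` by a fixed margin, or almost all of them are close to
half-integers.
-/

namespace Pool.Agent.Results.MP_7eacff_nt.Rigidity

open Filter

/-- `γ 0 ≤ γ 1 ≤ ⋯` lists the positive ordinates of the zeros `1 / 2 + i y` with multiplicity. -/
theorem result (hRH : RiemannHypothesis) (γ : ℕ → ℝ) (hmono : Monotone γ) (hpos : ∀ n, 0 < γ n)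
    (hmult : ∀ y : ℝ, 0 < y →
      {n | γ n = y}.encard = analyticOrderAt riemannZeta (1 / 2 + y * Complex.I))
    (ε : ℝ) (hε : 0 < ε) :
    ∃ δ : ℝ, 0 < δ ∧ ∀ᶠ N : ℕ in atTop,
      δ * N ≤ {n | n < N ∧ (γ (n + 1) - γ n) / (2 * Real.pi) * Real.log (γ n / (2 * Real.pi)) ≤
        1 / 2 - δ}.ncard ∨
      ({n | n < N ∧ ∀ k : ℤ, ε < |(γ (n + 1) - γ n) / (2 * Real.pi) *
        Real.log (γ n / (2 * Real.pi)) - k / 2|}.ncard : ℝ) ≤ ε * N :=
  have hμ := Pool.Agent.P.MP_7eacff_nt.zdata hRH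
  have hγ := Pool.Agent.P.MP_7eacff_nt.enum_zmeas hmono hpos hmult
  Pool.Agent.P.MP_7eacff_nt.Rig.rigid_of_vol hμ hγ
    (fun _ _ _ h1 h2 h3 => Pool.Agent.P.MP_7eacff_nt.Rig.vol_off hμ hγ h1 h2 h3) hε

end Pool.Agent.Results.MP_7eacff_nt.Rigidity
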