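import Pool.Agent.P.MP_7eacff_nt.Half2

/-!
On the Riemann hypothesis, for every `c > 1 / 2` a positive proportion of the normalised gaps
between consecutive zeros of the zeta function are at most `c`.
-/

namespace Pool.Agent.Results.MP_7eacff_nt.SmallGaps

open Filter

/-- `γ 0 ≤ γ 1 ≤ ⋯` lists the positive ordinates of the zeros `1 / 2 + i y` with multiplicity. -/
theorem result (hRH : RiemannHypothesis) (γ : ℕ → ℝ) (hmono : Monotone γ) (hpos : ∀ n, 0 < γ n)
    (hmult : ∀ y : ℝ, 0 < y →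
      {n | γ n = y}.encard = analyticOrderAt riemannZeta (1 / 2 + y * Complex.I))
    (c : ℝ) (hc : 1 / 2 < c) :
    ∃ η : ℝ, 0 < η ∧ ∀ᶠ N : ℕ in atTop, η * N ≤ ((Finset.range N).filter fun n =>
      (γ (n + 1) - γ n) / (2 * Real.pi) * Real.log (γ n / (2 * Real.pi)) ≤ c).card :=
  Pool.Agent.P.MP_7eacff_nt.half_gaps (Pool.Agent.P.MP_7eacff_nt.zdata hRH)
    (Pool.Agent.P.MP_7eacff_nt.enum_zmeas hmono hpos hmult) hc

end Pool.Agent.Results.MP_7eacff_nt.SmallGaps
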