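import Pool.Agent.P.MP_7eacff_nt.SZ.Final

/-!
On the Riemann hypothesis, for some `ε > 0` at most `14.65` per cent of the normalised gaps
between consecutive zeros of the zeta function are at most `ε`.
-/

namespace Pool.Agent.Results.MP_7eacff_nt.TinyGaps

open Filter

/-- `γ 0 ≤ γ 1 ≤ ⋯` lists the positive ordinates of the zeros `1 / 2 + i y` with multiplicity. -/
theorem result (hRH : RiemannHypothesis) (γ : ℕ → ℝ) (hmono : Monotone γ) (hpos : ∀ n, 0 < γ n)
    (hmult : ∀ y : ℝ, 0 < y →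
      {n | γ n = y}.encard = analyticOrderAt riemannZeta (1 / 2 + y * Complex.I)) :
    ∃ ε : ℝ, 0 < ε ∧ ∀ᶠ N : ℕ in atTop, (((Finset.range N).filter fun n =>
      (γ (n + 1) - γ n) / (2 * Real.pi) * Real.log (γ n / (2 * Real.pi)) ≤ ε).card : ℝ) ≤
        0.1465 * N := by
  obtain ⟨ε, hε, h⟩ := Pool.Agent.P.MP_7eacff_nt.SZ.few_small_gaps hRH
    (Pool.Agent.P.MP_7eacff_nt.enum_zmeas hmono hpos hmult)
  refine ⟨ε, hε, h.mono fun N hN => ?_⟩
  rw [← Set.ncard_coe_finset]
  convert hN using 3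
  · ext n
    simp
  · norm_num

end Pool.Agent.Results.MP_7eacff_nt.TinyGaps
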